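import Pool.Agent.Helper89.UB.Stmts

set_option autoImplicit false

open Finset

namespace Pool.Agent.Helper89.UB

/-- continuity of the transformed polynomial -/
theorem lcg_cont (n : ℕ) (r : ℕ → ℂ) : Continuous (qz n r) := by
  unfold qz
  fun_prop

theorem st_LCG (hHND : ST_HND) (hSHF : ST_SHF) (hQBD : ST_QBD) (hREP : ST_REP)
    (hSAD : ST_SAD) : ST_LCG := by
  obtain ⟨n₁, h1⟩ := hHND
  obtain ⟨n₂, h2⟩ := hSHF
  obtain ⟨n₃, h3⟩ := hSAD
  refine ⟨max (max n₁ n₂) (max n₃ 3), ?_⟩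
  intro n hn E hE hdeg m hm1 hm2
  have hn1 : n₁ ≤ n := le_trans (le_trans (le_max_left _ _) (le_max_left _ _)) hn
  have hn2 : n₂ ≤ n := le_trans (le_trans (le_max_right _ _) (le_max_left _ _)) hn
  have hn3 : n₃ ≤ n := le_trans (le_trans (le_max_left _ _) (le_max_right _ _)) hn
  have hn4 : 3 ≤ n := le_trans (le_trans (le_max_right _ _) (le_max_right _ _)) hn
  have hn4' : (3 : ℝ) ≤ n := by exact_mod_cast hn4
  have hlog : 1 ≤ Real.log n := by
    rw [Real.le_log_iff_exp_le (by linarith)]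
    have := Real.exp_one_lt_d9
    linarith
  obtain ⟨_, hcard⟩ := h1 n hn1 E hE hdeg
  obtain ⟨r, hr1, hr0, hr2⟩ := h2 n hn2 E hE hdeg
  have hq := hQBD n r hn4 hr0 hr2
  have ha0 : 0 ≤ (E.card : ℝ) / n := by positivity
  have ha1 : (E.card : ℝ) / n ≤ Real.sqrt n := by
    apply Real.le_sqrt_of_sq_le
    rw [div_pow, div_le_iff₀ (by positivity)]
    calc (E.card : ℝ) ^ 2 ≤ (1 / 2000000000) * n ^ 3 / (Real.log n) ^ 2 := hcard
      _ ≤ (1 / 2000000000) * n ^ 3 := by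
        apply div_le_self (by positivity)
        nlinarith
      _ ≤ n * n ^ 2 := by
        have : (0 : ℝ) ≤ (n : ℝ) ^ 3 := by positivity
        nlinarith
  have hEe : Al E ∅ := by
    intro e he hsub
    have h5 := hE e he
    rw [Finset.subset_empty.1 hsub] at h5
    simp at h5
  have hm0 : 1 ≤ m := by
    rcases Nat.eq_zero_or_pos m with h | h
    · subst h
      norm_num at hm1
      linarith
    · exact h
  obtain ⟨ρ, hρ0, _, hρ2⟩ := h3 n hn3 m hm1 hm2 ((E.card : ℝ) / n) ha0 ha1 (qz n r)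
    (lcg_cont n r) hq
  have hrep := hREP n E ((E.card : ℝ) / n) ρ r hEe hρ0 hr1
  set a : ℝ := (E.card : ℝ) / n with ha
  set κ : ℝ := (n.factorial : ℝ) / (2 * Real.pi) / ρ ^ n * Real.exp (-a * ρ) with hκ
  set l : ℝ := Real.exp ρ - 1 with hl
  have hκ0 : 0 < κ := by
    have := Real.pi_pos
    positivity
  have hl0 : 0 < l := by
    rw [hl]
    have := Real.add_one_lt_exp (x := ρ) hρ0.ne'
    linarith
  have hk : ∀ k : ℕ, (sur E univ k : ℂ) = ((κ * l ^ k : ℝ) : ℂ) * Jk n k a ρ (qz n r) := by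
    intro k
    rw [hrep k, hκ, hl]
    push_cast
    ring
  have him : ∀ k : ℕ, (Jk n k a ρ (qz n r)).im = 0 := by
    intro k
    have h5 := congrArg Complex.im (hk k)
    rw [Complex.im_ofReal_mul] at h5
    simp only [Complex.natCast_im] at h5
    have h6 : 0 < κ * l ^ k := by positivity
    rcases mul_eq_zero.1 h5.symm with h7 | h7
    · exact absurd h7 h6.ne'
    · exact h7
  have hre : ∀ k : ℕ, (sur E univ k : ℝ) = κ * l ^ k * (Jk n k a ρ (qz n r)).re := by
    intro k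
    have h5 := congrArg Complex.re (hk k)
    rw [Complex.re_ofReal_mul] at h5
    simpa using h5
  obtain ⟨hpos, hlc⟩ := hρ2 (him m)
  rw [Complex.mul_re, him (m - 1), him (m + 1)] at hlc
  constructor
  · have h5 : (0 : ℝ) < sur E univ m := by
      rw [hre m]
      positivity
    exact_mod_cast h5
  · rw [hre (m - 1), hre m, hre (m + 1)]
    have h6 : l ^ (m - 1) * l ^ (m + 1) = (l ^ m) ^ 2 := by
      rw [← pow_add, ← pow_mul]
      congr 1
      omega
    have h7 : (0 : ℝ) ≤ κ ^ 2 * (l ^ m) ^ 2 := by positivity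
    calc κ * l ^ (m - 1) * (Jk n (m - 1) a ρ (qz n r)).re *
          (κ * l ^ (m + 1) * (Jk n (m + 1) a ρ (qz n r)).re)
        = κ ^ 2 * (l ^ (m - 1) * l ^ (m + 1)) * ((Jk n (m - 1) a ρ (qz n r)).re *
            (Jk n (m + 1) a ρ (qz n r)).re - 0 * 0) := by ring
      _ = κ ^ 2 * (l ^ m) ^ 2 * ((Jk n (m - 1) a ρ (qz n r)).re *
            (Jk n (m + 1) a ρ (qz n r)).re - 0 * 0) := by rw [h6]
      _ ≤ κ ^ 2 * (l ^ m) ^ 2 * ((1 + 1 / (4 * m)) * (Jk n m a ρ (qz n r)).re ^ 2) :=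
          mul_le_mul_of_nonneg_left hlc h7
      _ = (1 + 1 / (4 * m)) * (κ * l ^ m * (Jk n m a ρ (qz n r)).re) ^ 2 := by ring

end Pool.Agent.Helper89.UB
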