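import Pool.Agent.Helper89.UB.Stmts

set_option autoImplicit false

open Finset

namespace Pool.Agent.Helper89.UB

theorem fal_step (k j : ℕ) :
    ((k + j + 1 : ℕ) : ℝ) ^ j ≤ Real.exp 1 * ((k + j : ℕ) : ℝ) ^ j := by
  rcases Nat.eq_zero_or_pos (k + j) with h | h
  · have hj : j = 0 := by omega
    subst hj
    simp only [pow_zero, mul_one]
    have := Real.add_one_le_exp (1 : ℝ)
    linarith
  · have h0 : (0 : ℝ) < ((k + j : ℕ) : ℝ) := by exact_mod_cast h
    have h1 : ((k + j + 1 : ℕ) : ℝ) ≤ ((k + j : ℕ) : ℝ) * Real.exp (1 / ((k + j : ℕ) : ℝ)) := by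
      have h2 := Real.add_one_le_exp (1 / ((k + j : ℕ) : ℝ))
      have h3 : ((k + j + 1 : ℕ) : ℝ) =
          ((k + j : ℕ) : ℝ) * (1 / ((k + j : ℕ) : ℝ) + 1) := by
        rw [Nat.cast_add_one, mul_add, mul_one_div_cancel h0.ne', mul_one]
        ring
      rw [h3]
      exact mul_le_mul_of_nonneg_left h2 h0.le
    calc ((k + j + 1 : ℕ) : ℝ) ^ j
        ≤ (((k + j : ℕ) : ℝ) * Real.exp (1 / ((k + j : ℕ) : ℝ))) ^ j :=
          pow_le_pow_left₀ (by positivity) h1 j
      _ = ((k + j : ℕ) : ℝ) ^ j * Real.exp (j * (1 / ((k + j : ℕ) : ℝ))) := by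
          rw [mul_pow, ← Real.exp_nat_mul]
      _ ≤ ((k + j : ℕ) : ℝ) ^ j * Real.exp 1 := by
          apply mul_le_mul_of_nonneg_left _ (by positivity)
          rw [Real.exp_le_exp, mul_one_div, div_le_one h0]
          push_cast
          have : (0 : ℝ) ≤ k := by positivity
          linarith
      _ = Real.exp 1 * ((k + j : ℕ) : ℝ) ^ j := by ring

theorem fal_aux (k j : ℕ) :
    ((k + j : ℕ) : ℝ) ^ j * k.factorial ≤ Real.exp j * (k + j).factorial := by
  induction j with
  | zero => simp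
  | succ j ih =>
    have h1 := fal_step k j
    have h2 : (0 : ℝ) ≤ ((k + j + 1 : ℕ) : ℝ) := by positivity
    have h3 : (0 : ℝ) ≤ (k.factorial : ℝ) := by positivity
    calc ((k + (j + 1) : ℕ) : ℝ) ^ (j + 1) * k.factorial
        = ((k + j + 1 : ℕ) : ℝ) * (((k + j + 1 : ℕ) : ℝ) ^ j * k.factorial) := by
          rw [← add_assoc, pow_succ]
          ring
      _ ≤ ((k + j + 1 : ℕ) : ℝ) * ((Real.exp 1 * ((k + j : ℕ) : ℝ) ^ j) * k.factorial) := by
          gcongr
      _ = ((k + j + 1 : ℕ) : ℝ) * Real.exp 1 * (((k + j : ℕ) : ℝ) ^ j * k.factorial) := by ring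
      _ ≤ ((k + j + 1 : ℕ) : ℝ) * Real.exp 1 * (Real.exp j * (k + j).factorial) := by
          gcongr
      _ = Real.exp ((j + 1 : ℕ) : ℝ) * (k + (j + 1)).factorial := by
          rw [← add_assoc, Nat.factorial_succ, Nat.cast_mul, Nat.cast_add_one j, Real.exp_add]
          ring

theorem st_FAL : ST_FAL := by
  intro n j hj
  obtain ⟨k, rfl⟩ := Nat.exists_eq_add_of_le' hj
  have := fal_aux k j
  rw [Nat.add_sub_cancel]
  exact this

theorem st_QBD (hFAL : ST_FAL) : ST_QBD := by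
  intro n r hn hr0 hr z hz
  have hn' : (3 : ℝ) ≤ n := by exact_mod_cast hn
  have hn0 : (0 : ℝ) < n := by linarith
  have hlog : 1 ≤ Real.log n := by
    rw [Real.le_log_iff_exp_le (by linarith)]
    have := Real.exp_one_lt_d9
    linarith
  have hL : 0 < Real.log n := by linarith
  have h1 : qz n r z - 1 = ∑ j ∈ range n,
      r (j + 1) * z ^ (j + 1) * (((n - (j + 1)).factorial : ℂ) / (n.factorial : ℂ)) := by
    unfold qz
    rw [sum_range_succ']
    simp only [hr0, pow_zero, Nat.sub_zero, one_mul]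
    rw [div_self (by exact_mod_cast (Nat.factorial_ne_zero n))]
    ring
  rw [h1]
  have h2 : ∀ j ∈ range n,
      ‖r (j + 1) * z ^ (j + 1) * (((n - (j + 1)).factorial : ℂ) / (n.factorial : ℂ))‖ ≤
        (1 / 400) * (1 / (2 : ℝ)) ^ j := by
    intro j hj
    have hj' : j + 1 ≤ n := by
      have := mem_range.1 hj
      omega
    have h3 := hr (j + 1) (by omega) hj'
    have h4 : ‖z‖ ^ (j + 1) ≤ (2 * Real.log n) ^ (j + 1) :=
      pow_le_pow_left₀ (norm_nonneg _) hz _
    have h5 : ((n - (j + 1)).factorial : ℝ) / (n.factorial : ℝ) ≤ (Real.exp 1 / n) ^ (j + 1) := by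
      have h6 := hFAL n (j + 1) hj'
      rw [div_pow, ← Real.exp_nat_mul, mul_one, div_le_div_iff₀ (by positivity) (by positivity)]
      linarith
    have h7 : ‖((((n - (j + 1)).factorial : ℕ) : ℂ) / ((n.factorial : ℕ) : ℂ))‖ =
        ((n - (j + 1)).factorial : ℝ) / (n.factorial : ℝ) := by
      rw [norm_div, Complex.norm_natCast, Complex.norm_natCast]
    rw [norm_mul, norm_mul, norm_pow, h7]
    calc ‖r (j + 1)‖ * ‖z‖ ^ (j + 1) * (((n - (j + 1)).factorial : ℝ) / (n.factorial : ℝ))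
        ≤ ((1 / 200) * (n / (12 * Real.log n)) ^ (j + 1)) * (2 * Real.log n) ^ (j + 1) *
            (Real.exp 1 / n) ^ (j + 1) := by
          gcongr
      _ = (1 / 200) * (Real.exp 1 / 6) ^ (j + 1) := by
          rw [mul_assoc, mul_assoc, ← mul_pow, ← mul_pow]
          congr 2
          field_simp
          ring
      _ ≤ (1 / 200) * (1 / 2) ^ (j + 1) := by
          have h8 : Real.exp 1 / 6 ≤ 1 / 2 := by
            have := Real.exp_one_lt_d9
            linarith
          exact mul_le_mul_of_nonneg_left (pow_le_pow_left₀ (by positivity) h8 _) (by norm_num)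
      _ = (1 / 400) * (1 / (2 : ℝ)) ^ j := by
          rw [pow_succ]
          ring
  calc ‖∑ j ∈ range n,
        r (j + 1) * z ^ (j + 1) * (((n - (j + 1)).factorial : ℂ) / (n.factorial : ℂ))‖
      ≤ ∑ j ∈ range n, (1 / 400) * (1 / (2 : ℝ)) ^ j :=
        (norm_sum_le _ _).trans (sum_le_sum h2)
    _ = (1 / 400) * ∑ j ∈ range n, (1 / (2 : ℝ)) ^ j := by rw [← mul_sum]
    _ ≤ (1 / 400) * 2 := by
        apply mul_le_mul_of_nonneg_left (sum_geometric_two_le n) (by norm_num)
    _ ≤ 1 / 100 := by norm_num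

end Pool.Agent.Helper89.UB
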