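import Pool.Agent.Helper89.UB.Stmts

set_option autoImplicit false

open Finset

namespace Pool.Agent.Helper89.UB

/-- every block of a partition into `n` blocks is a singleton -/
theorem shx_card {n : ℕ} (E : Finset (Finset (Fin n))) (c : Fin n → Finset (Fin n))
    (hc : c ∈ OP E univ n) : ∀ i, (c i).card = 1 := by
  unfold OP at hc
  simp only [mem_filter, mem_univ, true_and, true_iff] at hc
  obtain ⟨h1, h2, h3, _⟩ := hc
  have h4 : ∑ i, (c i).card = n := by
    rw [← card_biUnion (fun i _ j _ hij => h2 i j hij)]
    have : (univ : Finset (Fin n)).biUnion c = univ := by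
      ext v
      simp only [mem_biUnion, mem_univ, true_and, iff_true]
      exact h3 v
    rw [this, card_univ, Fintype.card_fin]
  have h5 : ∀ i ∈ (univ : Finset (Fin n)), 1 ≤ (c i).card := fun i _ => card_pos.2 (h1 i)
  have h6 : ∑ i : Fin n, 1 = ∑ i, (c i).card := by
    rw [h4]
    simp
  have h7 := (sum_eq_sum_iff_of_le h5).1 h6
  intro i
  exact (h7 i (mem_univ i)).symm

/-- number of ordered partitions into singletons -/
theorem shx_sur {n : ℕ} (E : Finset (Finset (Fin n))) (hE : ∀ e ∈ E, 2 ≤ e.card) :
    sur E univ n = n.factorial := by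
  classical
  have h1 : OP E univ n = (univ : Finset (Equiv.Perm (Fin n))).image
      (fun s : Equiv.Perm (Fin n) => fun i => ({s i} : Finset (Fin n))) := by
    ext c
    rw [mem_image]
    constructor
    · intro hc
      have h2 := shx_card E c hc
      choose s hs using fun i => card_eq_one.1 (h2 i)
      have h3 : Function.Injective s := by
        intro i j hij
        by_contra hne
        unfold OP at hc
        simp only [mem_filter, mem_univ, true_and] at hc
        have h4 := hc.2.1 i j hne
        rw [hs i, hs j, hij] at h4
        simp at h4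
      refine ⟨Equiv.ofBijective s (Finite.injective_iff_bijective.1 h3), mem_univ _, ?_⟩
      funext i
      rw [hs i]
      rfl
    · rintro ⟨s, _, rfl⟩
      unfold OP
      simp only [mem_filter, mem_univ, true_and, true_iff]
      refine ⟨fun i => singleton_nonempty _, ?_, ?_, ?_⟩
      · intro i j hij
        rw [disjoint_singleton]
        exact fun h => hij (s.injective h)
      · intro v
        exact ⟨s.symm v, by simp⟩
      · intro i e he hsub
        have h5 := card_le_card hsub
        have h6 := hE e he
        rw [card_singleton] at h5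
        omega
  unfold sur
  rw [h1, card_image_of_injective]
  · rw [card_univ, Fintype.card_perm, Fintype.card_fin]
  · intro s t hst
    ext i
    have := congrFun hst i
    simp only [singleton_inj] at this
    rw [this]

open Polynomial in
/-- the chromatic polynomial as a polynomial -/
noncomputable def shxP {n : ℕ} (E : Finset (Finset (Fin n))) : ℂ[X] :=
  ∑ m ∈ range (n + 1), C ((sur E univ m : ℂ) / (m.factorial : ℂ)) *
    ∏ i ∈ range m, (X - C (i : ℂ))

open Polynomial in
theorem shx_eval {n : ℕ} (E : Finset (Finset (Fin n))) (x : ℂ) :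
    PW E univ x = (shxP E).eval x := by
  unfold PW shxP
  rw [eval_finsetSum, card_univ, Fintype.card_fin]
  apply sum_congr rfl
  intro m _
  rw [eval_mul, eval_C, eval_prod]
  simp

open Polynomial in
theorem shx_natDegree (m : ℕ) : (∏ i ∈ range m, (X - C (i : ℂ))).natDegree = m := by
  rw [natDegree_prod_of_monic _ _ (fun i _ => monic_X_sub_C _)]
  rw [sum_congr rfl (fun (i : ℕ) _ => natDegree_X_sub_C (i : ℂ))]
  simp

open Polynomial in
theorem shx_degle {n : ℕ} (E : Finset (Finset (Fin n))) : (shxP E).natDegree ≤ n := by
  unfold shxP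
  apply natDegree_sum_le_of_forall_le
  intro m hm
  refine (natDegree_C_mul_le _ _).trans ?_
  rw [shx_natDegree]
  have := mem_range.1 hm
  omega

open Polynomial in
theorem shx_coeff {n : ℕ} (E : Finset (Finset (Fin n))) (hE : ∀ e ∈ E, 2 ≤ e.card) :
    (shxP E).coeff n = 1 := by
  unfold shxP
  rw [finsetSum_coeff, sum_range_succ, sum_eq_zero, zero_add]
  · rw [coeff_C_mul]
    have h1 : (∏ i ∈ range n, (X - C (i : ℂ))).coeff n = 1 := by
      have h2 := (monic_prod_of_monic (range n) (fun i : ℕ => (X - C (i : ℂ)))
        (fun i _ => monic_X_sub_C _)).coeff_natDegree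
      rwa [shx_natDegree] at h2
    rw [h1, shx_sur E hE, mul_one, div_self]
    exact_mod_cast Nat.factorial_ne_zero n
  · intro m hm
    rw [coeff_C_mul, coeff_eq_zero_of_natDegree_lt, mul_zero]
    rw [shx_natDegree]
    exact mem_range.1 hm

open Polynomial in
theorem st_SHX : ST_SHX := by
  intro n E a hE
  set p : ℂ[X] := (shxP E).comp (X + C (a : ℂ)) with hp
  have hdeg : p.natDegree ≤ n := by
    refine natDegree_comp_le.trans ?_
    rw [natDegree_X_add_C, mul_one]
    exact shx_degle E
  have hlead : p.coeff n = 1 := by
    have h0 : (shxP E).natDegree = n := by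
      refine le_antisymm (shx_degle E) (le_natDegree_of_ne_zero ?_)
      rw [shx_coeff E hE]
      exact one_ne_zero
    have h1 : (shxP E).Monic := by
      rw [Monic, leadingCoeff, h0, shx_coeff E hE]
    have h2 : p.Monic := h1.comp (monic_X_add_C _) (by
      rw [natDegree_X_add_C]
      exact one_ne_zero)
    have h3 : p.natDegree = n := by
      rw [hp, natDegree_comp, natDegree_X_add_C, mul_one, h0]
    have h4 := h2.coeff_natDegree
    rwa [h3] at h4
  refine ⟨fun j => p.coeff (n - j), ?_, ?_⟩
  · intro x
    rw [shx_eval]
    have h1 : (shxP E).eval (x + a) = p.eval x := by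
      rw [hp, eval_comp]
      simp
    rw [h1, eval_eq_sum_range' (Nat.lt_succ_of_le hdeg), ← sum_range_reflect]
    apply sum_congr rfl
    intro j hj
    have hj' := mem_range.1 hj
    have h2 : n + 1 - 1 - j = n - j := by omega
    rw [Nat.succ_eq_add_one, h2]
  · simpa using hlead

end Pool.Agent.Helper89.UB
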